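import Pool.Agent.Y934.SS.Fam

/-!
The curvature of the metrics on `S³ × S³` given by the explicit family of quadratic forms.
-/

open Bundle Manifold ContDiff ContinuousLinearMap Filter VectorField Metric Module
open scoped Topology RealInnerProductSpace

set_option autoImplicit false
set_option synthInstance.maxHeartbeats 400000
set_option maxHeartbeats 4000000
set_option linter.unusedSectionVars false

noncomputable section

namespace Pool.Agent.Y934.SS

open Pool.Agent.H821R2 Pool.Agent.H893R5.HO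
open HopfPP HopfG HopfG.Eqv HopfG.HS
open Pool.Agent.W482.S33 (XX3 WW)

theorem dt6_pos {c : V6 ℝ} (hc : c ≠ 0) : 0 < dt6 c c := by
  by_contra hcon
  apply hc
  have hz : ∀ a b : V ℝ, dt a a + dt b b ≤ 0 → a = 0 := by
    intro a b h
    simp only [dt] at h
    have m0 := mul_self_nonneg (a 0)
    have m1 := mul_self_nonneg (a 1)
    have m2 := mul_self_nonneg (a 2)
    have n0 := mul_self_nonneg (b 0)
    have n1 := mul_self_nonneg (b 1)
    have n2 := mul_self_nonneg (b 2)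
    apply ext3
    · exact mul_self_eq_zero.1 (by linarith)
    · exact mul_self_eq_zero.1 (by linarith)
    · exact mul_self_eq_zero.1 (by linarith)
  rw [dt6] at hcon
  refine Prod.ext (hz _ c.2 (by linarith)) (hz _ c.1 (by linarith))

section

variable {D : HopfG.HS.Dat ℝ} (hW : G2.SymM D.W) (hWp : G2.SymM D.Wp)

theorem Pexp_PS (p : S33) (a b γ : U4 × U4) (ha : XX3.P (XX3.j p) a = a)
    (hb : XX3.P (XX3.j p) b = b) :
    4 * XX3.Pexp (WW D hW hWp) (XX3.j p) a b γ = PS (D.at (c4 p.1)) (gz (XX3.j p))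
      (cv6 (J33 (XX3.j p) a)) (cv6 (J33 (XX3.j p) b)) (cv6 (J33 (XX3.j p) γ)) := by
  rw [sph_P] at ha hb
  have h1 : XX3.Pexp (WW D hW hWp) (XX3.j p) a b γ = PM33 (Kf D hW hWp (XX3.j p))
      (m33.k1 (Kf1 D hW hWp) (XX3.j p)) (m33.k2 (Kf1 D hW hWp) (Kf2 D hW hWp) (XX3.j p))
      (J33 (XX3.j p) a) (J33 (XX3.j p) b) (J33 (XX3.j p) γ) :=
    Pexp_PM33 (hasFDerivAt_Kf D hW hWp) (hasFDerivAt_Kf1 D hW hWp) (z := XX3.j p) ha.1 ha.2 hb.1
      hb.2 γ
  have h4 := PM33_eq (K0 := Kf D hW hWp (XX3.j p)) (K1 := m33.k1 (Kf1 D hW hWp) (XX3.j p))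
    (K2 := m33.k2 (Kf1 D hW hWp) (Kf2 D hW hWp) (XX3.j p))
    (K0' := K0 (D.at (c4 p.1)) (gz (XX3.j p))) (K1' := K1 (D.at (c4 p.1)) (gz (XX3.j p)))
    (K2' := K2 (D.at (c4 p.1)) (gz (XX3.j p)))
    (fun a => by rw [Kf_apply, cv6_vc6]; rfl) (fun w a => k1_eq D hW hWp (XX3.j p) w a)
    (fun w u a => k2_eq D hW hWp (XX3.j p) w u a) (J33 (XX3.j p) a) (J33 (XX3.j p) b)
      (J33 (XX3.j p) γ)
  rw [h1, h4]
  rfl

variable {g : RM} (hC : XX3.Com (WW D hW hWp)) (hg : XX3.Dual g (WW D hW hWp))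

theorem J_inner (p : S33) (a b : U4 × U4) (ha : XX3.P (XX3.j p) a = a) :
    dt6 (cv6 (J33 (XX3.j p) a)) (cv6 (J33 (XX3.j p) b)) = XX3.B a b := by
  rw [sph_P] at ha
  have k1 := qJ_inner (p.1 : U4) a.1 b.1
  have k2 := qJ_inner (p.2 : U4) a.2 b.2
  rw [ha.1, inner_self_sph] at k1
  rw [ha.2, inner_self_sph] at k2
  rw [← cv6_dt6, J33_apply, J33_apply, sB_apply]
  change ⟪qJ (p.1 : U4) a.1, qJ (p.1 : U4) b.1⟫ + ⟪qJ (p.2 : U4) a.2, qJ (p.2 : U4) b.2⟫ =
    ⟪a.1, b.1⟫ + ⟪a.2, b.2⟫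
  linarith

include hC hg

theorem exists_lc : ∃ (cov : CovariantDerivative I33
      (EuclideanSpace ℝ (Fin 3) × EuclideanSpace ℝ (Fin 3)) (TangentSpace I33 : S33 → Type _))
    (R : CurvField I33 S33), IsLeviCivita g cov ∧ IsRiemannTensor cov R :=
  Emb.exists_cov hC hg

theorem pos_of_PS
    (hpos : ∀ (x g : Q4 ℝ) (α β Γ : V6 ℝ), qd x x = 1 → qd g g = 1 →
      dt6 α α = 1 → dt6 β β = 1 → dt6 α β = 0 → 0 < PS (D.at x) g α β Γ) :
    HasPositiveSectionalCurvature g := by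
  obtain ⟨cov, R, h, hR⟩ := exists_lc hW hWp hC hg
  refine HasPositiveSectionalCurvature.of_exists h hR fun p u v huv => ?_
  refine Emb.sec_pos hC hg h hR ?_ p u v huv
  intro p a b γ ha hb haa hbb hab _ _
  have h4 := Pexp_PS hW hWp p a b γ ha hb
  have h5 := hpos (c4 p.1) (gz (XX3.j p)) (cv6 (J33 (XX3.j p) a)) (cv6 (J33 (XX3.j p) b))
    (cv6 (J33 (XX3.j p) γ)) (unit1 p) (unitg p) ((J_inner p a a ha).trans haa)
    ((J_inner p b b hb).trans hbb) ((J_inner p a b ha).trans hab)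
  rw [← h4] at h5
  linarith

theorem kap_nonneg_of_PS
    (hpos : ∀ (x g : Q4 ℝ) (α β Γ : V6 ℝ), qd x x = 1 → qd g g = 1 →
      dt6 α α = 1 → dt6 β β = 1 → dt6 α β = 0 → 0 ≤ PS (D.at x) g α β Γ)
    {cov : CovariantDerivative I33
      (EuclideanSpace ℝ (Fin 3) × EuclideanSpace ℝ (Fin 3)) (TangentSpace I33 : S33 → Type _)}
    {R : CurvField I33 S33} (h : IsLeviCivita g cov) (hR : IsRiemannTensor cov R)
    (p : S33) (u v : TangentSpace I33 p) : 0 ≤ g.inner p (R p u v v) u := by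
  refine kap_nonneg hC hg h hR ?_ p u v
  intro p a b γ ha hb haa hbb hab _ _
  have h4 := Pexp_PS hW hWp p a b γ ha hb
  have h5 := hpos (c4 p.1) (gz (XX3.j p)) (cv6 (J33 (XX3.j p) a)) (cv6 (J33 (XX3.j p) b))
    (cv6 (J33 (XX3.j p) γ)) (unit1 p) (unitg p) ((J_inner p a a ha).trans haa)
    ((J_inner p b b hb).trans hbb) ((J_inner p a b ha).trans hab)
  rw [← h4] at h5
  linarith

theorem nonneg_of_PS
    (hpos : ∀ (x g : Q4 ℝ) (α β Γ : V6 ℝ), qd x x = 1 → qd g g = 1 →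
      dt6 α α = 1 → dt6 β β = 1 → dt6 α β = 0 → 0 ≤ PS (D.at x) g α β Γ) :
    HasNonnegativeSectionalCurvature g := by
  refine ⟨exists_lc hW hWp hC hg, ?_⟩
  intro cov R h hR p u v _
  exact div_nonneg (kap_nonneg_of_PS hW hWp hC hg hpos h hR p u v) (gram_nonneg g p u v)

theorem flat_of_PS
    (hpos : ∀ (x g : Q4 ℝ) (α β Γ : V6 ℝ), qd x x = 1 → qd g g = 1 →
      dt6 α α = 1 → dt6 β β = 1 → dt6 α β = 0 → 0 ≤ PS (D.at x) g α β Γ)
    (p : S33) (α β Γ : V6 ℝ) (hαβ : LinearIndependent ℝ ![α, β])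
    (hzero : PS (D.at (c4 p.1)) (gz (XX3.j p)) α β Γ = 0) : HasFlatPlane g := by
  intro cov R h hR
  set z := XX3.j p with hz
  set a := R33 (vc6 α) z with ha
  set b := R33 (vc6 β) z with hb
  obtain ⟨u, hu, hu1, -⟩ := dual_om hW hWp hC hg p α
  obtain ⟨v, hv, hv1, -⟩ := dual_om hW hWp hC hg p β
  have ta : XX3.P z a = a := m33.tan p (vc6 α)
  have tb : XX3.P z b = b := m33.tan p (vc6 β)
  have huv : LinearIndependent ℝ ![u, v] := by
    rw [LinearIndependent.pair_iff] at hαβ ⊢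
    intro s t hst
    apply hαβ
    have h1 : ∀ w, dt6 (s • α + t • β) (om p w) = 0 := by
      intro w
      have e : g.inner p (s • u + t • v) w = s * g.inner p u w + t * g.inner p v w := by
        rw [map_add, map_smul, map_smul]; rfl
      rw [hst] at e
      have e0 : g.inner p (0 : TangentSpace I33 p) w = 0 := by simp
      rw [e0, hu1, hv1] at e
      have e2 : dt6 (s • α + t • β) (om p w) = s * dt6 α (om p w) + t * dt6 β (om p w) := by
        simp only [dt6, dt, Prod.fst_add, Prod.snd_add, Prod.smul_fst, Prod.smul_snd, Pi.add_apply,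
          Pi.smul_apply, smul_eq_mul]
        ring
      rw [e2]
      exact e.symm
    obtain ⟨w, hw, hw1, hw2⟩ := dual_om hW hWp hC hg p (s • α + t • β)
    have h2 := h1 w
    rw [← hw1] at h2
    have hw0 : w = 0 := by
      by_contra hne
      have := g.pos p w hne
      rw [h2] at this
      exact lt_irrefl _ this
    have h3 : ∀ w', dt6 (s • α + t • β) (om p w') = 0 := h1
    have h4 : (s • α + t • β) = cv6 (J33 z (R33 (vc6 (s • α + t • β)) z)) := by
      rw [hz, J_R, cv6_vc6]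
    obtain ⟨w', hw'⟩ := XX3.rng p (R33 (vc6 (s • α + t • β)) z)
    have h5 : XX3.d p w' = R33 (vc6 (s • α + t • β)) z := by
      refine Eq.trans hw' ?_
      exact m33.tan p _
    have h6 := h3 w'
    rw [om_eq, h5, ← hz, ← h4] at h6
    by_contra hne
    have h7 := dt6_pos hne
    rw [h6] at h7
    exact lt_irrefl _ h7
  refine ⟨p, u, v, huv, ?_⟩
  have hle := kap_le hC hg h hR p a b (R33 (vc6 Γ) z) u v hu hv
  have hP := Pexp_PS hW hWp p a b (R33 (vc6 Γ) z) ta tb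
  have hJ : ∀ w : V6 ℝ, cv6 (J33 z (R33 (vc6 w) z)) = w := fun w => by
    rw [hz, J_R, cv6_vc6]
  rw [← hz, ha, hb, hJ, hJ, hJ, hzero] at hP
  have h0 : XX3.Pexp (WW D hW hWp) z a b (R33 (vc6 Γ) z) = 0 := by
    rw [ha, hb]
    linarith
  rw [← hz, h0] at hle
  have hge := kap_nonneg_of_PS hW hWp hC hg hpos h hR p u v
  have : g.inner p (R p u v v) u = 0 := le_antisymm hle hge
  rw [sectionalCurvature, this, zero_div]

end

end Pool.Agent.Y934.SS
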