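import Pool.Agent.Y934.SS.Gen
import Pool.Agent.W482.S33.Fin
import Pool.Agent.H660.HopfChi.Main

/-!
The metrics on `S³ × S³` given by an explicit family of quadratic forms on covectors.
-/

open Bundle Manifold ContDiff ContinuousLinearMap Filter VectorField Metric Module
open scoped Topology RealInnerProductSpace

set_option autoImplicit false
set_option synthInstance.maxHeartbeats 400000
set_option maxHeartbeats 4000000
set_option linter.unusedSectionVars false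

noncomputable section

namespace Pool.Agent.Y934.SS

open Pool.Agent.H821R2 Pool.Agent.H893R5.HO
open HopfPP HopfG HopfG.Eqv HopfG.HS
open Pool.Agent.W482.S33 (XX3 WW)

/-- The smooth Riemannian metrics on `S³ × S³`. -/
abbrev RM : Type := ContMDiffRiemannianMetric I33 ∞
  (EuclideanSpace ℝ (Fin 3) × EuclideanSpace ℝ (Fin 3)) (fun x : S33 => TangentSpace I33 x)

/-- The left trivialisation of the tangent bundle of `S³ × S³`: for a tangent vector `v` at the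
point `(x, y)` with `a = dx(v)`, `b = dy(v)` (in `ℝ⁴`, the quaternions) it is the pair of the
imaginary parts of the quaternions `x̄ a` and `ȳ b`. -/
def om (p : S33) (v : TangentSpace I33 p) : V6 ℝ :=
  (qp (qm (qc (c4 p.1)) (c4 (mvfderiv I33 (fun q : S33 => (q.1 : U4)) p v))),
    qp (qm (qc (c4 p.2)) (c4 (mvfderiv I33 (fun q : S33 => (q.2 : U4)) p v))))

theorem d_fst (p : S33) (v : TangentSpace I33 p) :
    mvfderiv I33 (fun q : S33 => (q.1 : U4)) p v = (XX3.d p v).1 := by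
  have h : MDifferentiableAt I33 𝓘(ℝ, U4 × U4) (sj U4 U4) p :=
    (smooth_sj 3 3).mdifferentiableAt (by simp)
  exact d_clm' (ContinuousLinearMap.fst ℝ U4 U4) h v

theorem d_snd (p : S33) (v : TangentSpace I33 p) :
    mvfderiv I33 (fun q : S33 => (q.2 : U4)) p v = (XX3.d p v).2 := by
  have h : MDifferentiableAt I33 𝓘(ℝ, U4 × U4) (sj U4 U4) p :=
    (smooth_sj 3 3).mdifferentiableAt (by simp)
  exact d_clm' (ContinuousLinearMap.snd ℝ U4 U4) h v

theorem cv_qJ (x a : U4) : cv (qJ x a) = qp (qm (qc (c4 x)) (c4 a)) := by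
  refine ext3 ?_ ?_ ?_ <;> simp [cv, qp, qm, qc, c4] <;> ring

theorem om_eq (p : S33) (v : TangentSpace I33 p) :
    om p v = cv6 (J33 (XX3.j p) (XX3.d p v)) := by
  rw [J33_apply, om, d_fst, d_snd]
  refine Prod.ext ?_ ?_
  · exact (cv_qJ _ _).symm
  · exact (cv_qJ _ _).symm

/-- `Q(p; L, M)` is the square of the length, for the metric `g`, of the covector
`v ↦ ⟨L, ω₁(v)⟩ + ⟨M, ω₂(v)⟩` at `p`, for all `p` and `L, M`, where `ω = om`: if `v` is the vector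
which represents this covector, then `g(v, v) = Q(p; L, M)`. -/
def IsCometric (g : RM) (Q : S33 → V6 ℝ → ℝ) : Prop :=
  ∀ (p : S33) (c : V6 ℝ) (v : TangentSpace I33 p),
    (∀ w : TangentSpace I33 p, g.inner p v w = dt6 c (om p w)) → g.inner p v v = Q p c

/-- The explicit quadratic form at the point `(x, y)`: with `L' = x L x̄`, `M' = y M ȳ` and
`k = x̄ y` it is
`|L|² + |M|² + ⟨W (L + M), L + M⟩ + ⟨W' (L' + M'), L' + M'⟩ +
4 e ⟨(Re k) M + M × (b Im ȳ), L - k̄ L k⟩ + 2 l ⟨A L', L⟩`. -/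
def QF (b μ e l : ℝ) (p : S33) (c : V6 ℝ) : ℝ :=
  dt c.1 c.1 + dt c.2 c.2 +
    dt (mv ![![1, μ, 0], ![μ, 1, 0], ![0, 0, 1]] (c.1 + c.2)) (c.1 + c.2) +
    dt (mv ![![1, 0, 0], ![0, 1, μ], ![0, μ, 1]] (Ad (c4 p.1) c.1 + Ad (c4 p.2) c.2))
      (Ad (c4 p.1) c.1 + Ad (c4 p.2) c.2) +
    4 * e * dt ((qm (qc (c4 p.1)) (c4 p.2)) 0 • c.2 + cx c.2 (b • qp (qc (c4 p.2))))
      (c.1 - Ad (qc (qm (qc (c4 p.1)) (c4 p.2))) c.1) +
    2 * l * dt (mv ![![-1, 0, 2], ![0, -1, 0], ![0, 0, -1]] (Ad (c4 p.1) c.1)) c.1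

theorem unit1 (p : S33) : qd (c4 p.1) (c4 p.1) = 1 := qd_c4 (norm_eq_of_mem_sphere p.1)
theorem unit2 (p : S33) : qd (c4 p.2) (c4 p.2) = 1 := qd_c4 (norm_eq_of_mem_sphere p.2)

theorem qm_gz (p : S33) : qm (c4 p.1) (gz (XX3.j p)) = c4 p.2 := by
  change qm (c4 p.1) (qm (qc (c4 p.1)) (c4 p.2)) = c4 p.2
  rw [← qm_assoc, qm_qc, unit1, one_qm]

theorem unitg (p : S33) : qd (gz (XX3.j p)) (gz (XX3.j p)) = 1 :=
  qd_gz (norm_eq_of_mem_sphere p.1) (norm_eq_of_mem_sphere p.2)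

theorem QF_eq (b μ e l : ℝ) (p : S33) (c : V6 ℝ) :
    dt6 c (K0 ((Dfr b μ e l).at (c4 p.1)) (gz (XX3.j p)) c) = QF b μ e l p c := by
  rw [C124.form_K0]
  have h1 : dt (mv ((Dfr b μ e l).at (c4 p.1)).Wp (c.1 + Ad (gz (XX3.j p)) c.2))
      (c.1 + Ad (gz (XX3.j p)) c.2) =
      dt (mv ![![1, 0, 0], ![0, 1, μ], ![0, μ, 1]] (Ad (c4 p.1) c.1 + Ad (c4 p.2) c.2))
      (Ad (c4 p.1) c.1 + Ad (c4 p.2) c.2) := by
    rw [mv_at_Wp, dt_Ad_adj, qc_qc, Ad_add, Ad_Ad, qm_gz]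
    rfl
  have h2 : nn ((Dfr b μ e l).at (c4 p.1)) (gz (XX3.j p)) = b • qp (qc (c4 p.2)) := by
    have : nn ((Dfr b μ e l).at (c4 p.1)) (gz (XX3.j p)) =
        qp (qm (qc (gz (XX3.j p))) (qm (qc (c4 p.1)) ![b, 0, 0, 0])) := rfl
    rw [this, ← qm_assoc, ← qc_qm, qm_gz]
    refine ext3 ?_ ?_ ?_ <;> simp [qp, qm, qc, mul_comm]
  have h3 : mv ((Dfr b μ e l).at (c4 p.1)).A c.1 =
      mv ![![-1, 0, 2], ![0, -1, 0], ![0, 0, -1]] (Ad (c4 p.1) c.1) := by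
    rw [mv_at_A]
    rfl
  rw [h1, h3, HopfG.HS.sS, h2]
  have h4 : ((Dfr b μ e l).at (c4 p.1)).W = ![![1, μ, 0], ![μ, 1, 0], ![0, 0, 1]] := rfl
  have h5 : ((Dfr b μ e l).at (c4 p.1)).e = e := rfl
  have h6 : ((Dfr b μ e l).at (c4 p.1)).l = l := rfl
  rw [h4, h5, h6, QF]
  have h7 : gz (XX3.j p) = qm (qc (c4 p.1)) (c4 p.2) := rfl
  rw [h7]
  ring

section

variable {D : HopfG.HS.Dat ℝ} (hW : G2.SymM D.W) (hWp : G2.SymM D.Wp)

theorem com_of (hpd : ∀ (x g : Q4 ℝ), qd x x = 1 → qd g g = 1 → ∀ c : V6 ℝ, c ≠ 0 →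
      0 < dt6 c (K0 (D.at x) g c)) : XX3.Com (WW D hW hWp) := by
  have hs : ∀ z c d, sB U3 U3 (Kf D hW hWp z c) d = sB U3 U3 c (Kf D hW hWp z d) := fun z c d => by
      rw [cv6_dt6, cv6_dt6, Kf_apply, Kf_apply, cv6_vc6, cv6_vc6, (laws D hW hWp z).y0]
  have hp : ∀ x y : U4, ‖x‖ = 1 → ‖y‖ = 1 → ∀ c : C6, c ≠ 0 →
      0 < sB U3 U3 c (Kf D hW hWp (x, y) c) := fun x y hx hy c hc => by
      rw [cv6_dt6, Kf_apply, cv6_vc6]
      exact hpd _ _ (qd_c4 hx) (qd_gz (z := (x, y)) hx hy) _ (cv6_ne hc)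
  exact m33.com (Kf_smooth D hW hWp) hs (fun p c hc => hp (p.1 : U4) (p.2 : U4)
    (norm_eq_of_mem_sphere p.1) (norm_eq_of_mem_sphere p.2) c hc)

variable {g : RM}

theorem vc_cv (a : U3) : vc (cv a) = a := by
  refine ext_U3 ?_ ?_ ?_ <;> rfl

theorem vc6_cv6 (a : C6) : vc6 (cv6 a) = a := Prod.ext (vc_cv _) (vc_cv _)

theorem J_R (p : S33) (w : C6) : J33 (XX3.j p) (R33 w (XX3.j p)) = w := by
  have key : ∀ (x : U4), ⟪x, x⟫ = 1 → ∀ w : U3, qJ x (qR w x) = w := by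
    intro x hx w
    rw [inner_U4] at hx
    refine ext_U3 ?_ ?_ ?_
    · simp only [qJ0, qR0, qR1, qR2, qR3]
      linear_combination (w 0) * hx
    · simp only [qJ1, qR0, qR1, qR2, qR3]
      linear_combination (w 1) * hx
    · simp only [qJ2, qR0, qR1, qR2, qR3]
      linear_combination (w 2) * hx
  rw [J33_apply, R33_apply]
  exact Prod.ext (key _ (inner_self_sph p.1) _) (key _ (inner_self_sph p.2) _)

/-- the covector of `c` -/
theorem dual_om (hC : XX3.Com (WW D hW hWp)) (hg : XX3.Dual g (WW D hW hWp)) (p : S33)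
    (c : V6 ℝ) : ∃ v : TangentSpace I33 p,
      XX3.d p v = WW D hW hWp (XX3.j p) (R33 (vc6 c) (XX3.j p)) ∧
      (∀ w, g.inner p v w = dt6 c (om p w)) ∧
      g.inner p v v = dt6 c (K0 (D.at (c4 p.1)) (gz (XX3.j p)) c) := by
  obtain ⟨v, hv, h1⟩ := exists_vec hC hg p (R33 (vc6 c) (XX3.j p))
  have h2 : ∀ w, g.inner p v w = dt6 c (om p w) := by
    intro w
    rw [h1, om_eq]
    have := m33.adj (vc6 c) (XX3.j p) (XX3.d p w)
    change XX3.B (R33 (vc6 c) (XX3.j p)) (XX3.d p w) = _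
    refine Eq.trans this ?_
    change sB U3 U3 (vc6 c) (J33 (XX3.j p) (XX3.d p w)) = _
    rw [cv6_dt6, cv6_vc6]
  refine ⟨v, hv, h2, ?_⟩
  rw [h2, om_eq, hv]
  have : WW D hW hWp (XX3.j p) (R33 (vc6 c) (XX3.j p)) =
      R33 (Kf D hW hWp (XX3.j p) (J33 (XX3.j p) (R33 (vc6 c) (XX3.j p)))) (XX3.j p) := rfl
  rw [this, J_R, J_R, Kf_apply, cv6_vc6, cv6_vc6]
  rfl

theorem isCometric_of (hC : XX3.Com (WW D hW hWp)) (hg : XX3.Dual g (WW D hW hWp)) :
    IsCometric g (fun p c => dt6 c (K0 (D.at (c4 p.1)) (gz (XX3.j p)) c)) := by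
  intro p c v hv
  obtain ⟨u, -, h2, h3⟩ := dual_om hW hWp hC hg p c
  have : v = u := by
    rw [← sub_eq_zero]
    by_contra hne
    have hp := g.pos p _ hne
    have h4 : ∀ w, g.inner p (v - u) w = 0 := by
      intro w
      have : g.inner p (v - u) w = g.inner p v w - g.inner p u w := by
        rw [map_sub]; rfl
      rw [this, hv, h2, sub_self]
    rw [h4] at hp
    exact lt_irrefl _ hp
  rw [this]
  exact h3

/-- every vector comes from a covector -/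
theorem exists_c (hC : XX3.Com (WW D hW hWp)) (hg : XX3.Dual g (WW D hW hWp)) (p : S33)
    (v : TangentSpace I33 p) : ∃ c : V6 ℝ, ∀ w, g.inner p v w = dt6 c (om p w) := by
  obtain ⟨a, ha1, ha⟩ := Emb.exists_covec hC hg p v
  refine ⟨cv6 (J33 (XX3.j p) a), fun w => ?_⟩
  rw [hg p a v ha.symm w, om_eq, ← cv6_dt6]
  have h1 := ha1
  rw [sph_P] at h1
  have h2 : XX3.P (XX3.j p) (XX3.d p w) = XX3.d p w := XX3.P_d p w
  rw [sph_P] at h2
  have k1 := qJ_inner (p.1 : U4) a.1 (XX3.d p w).1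
  have k2 := qJ_inner (p.2 : U4) a.2 (XX3.d p w).2
  rw [h1.1, inner_self_sph] at k1
  rw [h1.2, inner_self_sph] at k2
  rw [J33_apply, J33_apply, sB_apply]
  change ⟪a.1, (XX3.d p w).1⟫ + ⟪a.2, (XX3.d p w).2⟫ =
    ⟪qJ (p.1 : U4) a.1, qJ (p.1 : U4) (XX3.d p w).1⟫ +
      ⟪qJ (p.2 : U4) a.2, qJ (p.2 : U4) (XX3.d p w).2⟫
  linarith

end

/-- a metric and a family of covectors representing all of the dual space -/
structure Full (g : RM) (Q : S33 → V6 ℝ → ℝ) : Prop where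
  cometric : IsCometric g Q
  vec : ∀ (p : S33) (c : V6 ℝ), ∃ v : TangentSpace I33 p, ∀ w, g.inner p v w = dt6 c (om p w)
  cov : ∀ (p : S33) (v : TangentSpace I33 p), ∃ c : V6 ℝ, ∀ w, g.inner p v w = dt6 c (om p w)

/-- comparison of two metrics -/
theorem compare {g g' : RM} {Q Q' : S33 → V6 ℝ → ℝ} (h : Full g Q) (h' : Full g' Q') {r : ℝ}
    (hr : 0 ≤ r)
    (hQ : ∀ p c, Q p c ≤ r * Q' p c) (p : S33) (v : TangentSpace I33 p) :
    g'.inner p v v ≤ r * g.inner p v v := by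
  by_cases hv : v = 0
  · subst hv
    simp
  obtain ⟨c, hc⟩ := h'.cov p v
  obtain ⟨u, hu⟩ := h.vec p c
  have e1 : g'.inner p v v = Q' p c := h'.cometric p c v hc
  have e2 : g.inner p u u = Q p c := h.cometric p c u hu
  have e3 : g'.inner p v v = g.inner p u v := by rw [hc, hu]
  have h1 := gram_nonneg g p u v
  have h2 := hQ p c
  have hpos : 0 < g'.inner p v v := g'.pos p v hv
  have hg0 : 0 < g.inner p v v := g.pos p v hv
  rw [← e3, e2] at h1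
  rw [← e1] at h2
  have h3 : g'.inner p v v ^ 2 ≤ r * g'.inner p v v * g.inner p v v := by
    have := mul_le_mul_of_nonneg_right h2 hg0.le
    linarith
  have h4 : g'.inner p v v * g'.inner p v v ≤ g'.inner p v v * (r * g.inner p v v) := by
    nlinarith
  exact le_of_mul_le_mul_left h4 hpos

end Pool.Agent.Y934.SS
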