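import Pool.Agent.Y934.SS.Main

/-!
The final statement on positively curved metrics on `S³ × S³` near nonnegatively curved ones.
-/

open Bundle Manifold ContDiff ContinuousLinearMap Filter VectorField Metric Module
open scoped Topology RealInnerProductSpace

set_option autoImplicit false
set_option synthInstance.maxHeartbeats 400000
set_option maxHeartbeats 4000000
set_option linter.unusedSectionVars false

noncomputable section

namespace Pool.Agent.Y934.SS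

open Pool.Agent.H821R2 Pool.Agent.H893R5.HO
open HopfPP HopfG HopfG.Eqv HopfG.HS
open Pool.Agent.W482.S33 (XX3 WW)
open Pool.Agent.H839R2.RS

/-- The metric `g` is of the family with parameters `b, μ, e, l`: its cometric is the explicit
quadratic form `QF b μ e l`, and the projection of `S³ × S³` to the first factor is a Riemannian
submersion from `g` onto a smooth Riemannian metric on `S³`. -/
def InFamily (b μ e l : ℝ) (g : RM) : Prop :=
  IsCometric g (QF b μ e l) ∧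
    ∃ h : ContMDiffRiemannianMetric (𝓡 3) ∞ (EuclideanSpace ℝ (Fin 3))
      (fun x : Pool.Agent.W482.S33.S3 => TangentSpace (𝓡 3) x),
      IsRiemannianSubmersion g h
        (Prod.fst : Pool.Agent.W482.S33.S3 × Pool.Agent.W482.S33.S3 → Pool.Agent.W482.S33.S3)

/-- small parameters -/
def Sm4 (b μ e l : ℝ) : Prop := |b| ≤ 1 / 100 ∧ |μ| ≤ 1 / 100 ∧ |e| ≤ 1 / 100 ∧ |l| ≤ 1 / 100

open Classical in
/-- the metric with given parameters -/
def gm (b μ e l : ℝ) : RM :=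
  if h : Sm4 b μ e l then (exists_g b μ e l h.1 h.2.1 h.2.2.1 h.2.2.2).choose
  else (exists_g 0 0 0 0 (by norm_num) (by norm_num) (by norm_num) (by norm_num)).choose

theorem gm_spec {b μ e l : ℝ} (h : Sm4 b μ e l) :
    XX3.Dual (gm b μ e l) (WW (Dfr b μ e l) (symM_Dfr_W b μ e l) (symM_Dfr_Wp b μ e l)) ∧
      Full (gm b μ e l) (QF b μ e l) := by
  rw [gm, dif_pos h]
  exact (exists_g b μ e l h.1 h.2.1 h.2.2.1 h.2.2.2).choose_spec

theorem gm_com {b μ e l : ℝ} (h : Sm4 b μ e l) :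
    XX3.Com (WW (Dfr b μ e l) (symM_Dfr_W b μ e l) (symM_Dfr_Wp b μ e l)) :=
  data b μ e l h.1 h.2.1 h.2.2.1 h.2.2.2

theorem gm_family {b μ e l : ℝ} (h : Sm4 b μ e l) : InFamily b μ e l (gm b μ e l) :=
  ⟨(gm_spec h).2.cometric, Pool.Agent.W482.S33.submersion _ _ _ (gm_com h) (gm_spec h).1⟩

theorem gm_pos {b μ e l : ℝ} (h : Sm4 b μ e l) (hG : GOAL b μ e l) :
    HasPositiveSectionalCurvature (gm b μ e l) :=
  pos_of_PS _ _ (gm_com h) (gm_spec h).1 hG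

theorem gm_nonneg {b μ : ℝ} (h : Sm4 b μ 0 0) (hpos : ∀ (x g : Q4 ℝ) (α β Γ : V6 ℝ),
      qd x x = 1 → qd g g = 1 → dt6 α α = 1 → dt6 β β = 1 → dt6 α β = 0 →
      0 ≤ PS ((Dfr b μ 0 0).at x) g α β Γ) :
    HasNonnegativeSectionalCurvature (gm b μ 0 0) ∧ HasFlatPlane (gm b μ 0 0) :=
  ⟨nonneg_of_PS _ _ (gm_com h) (gm_spec h).1 hpos, flat (gm_com h) (gm_spec h).1 hpos⟩

theorem sm_zero : Sm4 0 0 0 0 := by
  refine ⟨?_, ?_, ?_, ?_⟩ <;> norm_num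

theorem base_nonneg (x g : Q4 ℝ) (α β Γ : V6 ℝ)
    (hx : qd x x = 1) (hg : qd g g = 1) (_ : dt6 α α = 1) (_ : dt6 β β = 1) (_ : dt6 α β = 0) :
    0 ≤ PS ((Dfr 0 0 0 0).at x) g α β Γ := by
  have h := H515HS.FF_zero 0 (x, g, α, β, Γ) hx hg
  have h2 := H515HS.sos_nonneg g α β Γ
  have h3 : H515HS.FF 0 0 0 0 (x, g, α, β, Γ) = PS ((Dfr 0 0 0 0).at x) g α β Γ := rfl
  rw [← h3, h]
  exact h2

/-- the curve of metrics -/
theorem curve (η : ℝ) (hη : 0 < η) :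
    ∃ b δ μ₀ : ℝ, 0 < b ∧ b < η ∧ 0 < δ ∧ δ < η ∧ 0 < μ₀ ∧ μ₀ < η ∧
      ∀ μ : ℝ, 0 < μ → μ < μ₀ → ∃ (ε₀ : ℝ) (G : ℝ → RM), 0 < ε₀ ∧ ε₀ < η ∧
        (∀ ε, 0 ≤ ε → ε < ε₀ → InFamily b μ (ε / 8) (δ * ε ^ 2 / (2 * μ ^ 2)) (G ε) ∧
          Close η (G ε) (gm 0 0 0 0)) ∧
        (∀ θ : ℝ, 0 < θ → ∃ ε₁ : ℝ, 0 < ε₁ ∧ ∀ ε, 0 ≤ ε → ε < ε₁ → Close θ (G ε) (G 0)) ∧
        HasNonnegativeSectionalCurvature (G 0) ∧ HasFlatPlane (G 0) ∧
        ∀ ε, 0 < ε → ε < ε₀ → HasPositiveSectionalCurvature (G ε) := by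
  obtain ⟨η', hη'⟩ : ∃ η', η' = min η (1 / 100) := ⟨_, rfl⟩
  have h0 : 0 < η' := by rw [hη']; positivity
  have h1 : η' ≤ η := by rw [hη']; exact min_le_left _ _
  have h2 : η' ≤ 1 / 100 := by rw [hη']; exact min_le_right _ _
  obtain ⟨b, δ, hb, hb', hδ, hδ', μ0, hμ0, H⟩ := main_family η' h0
  refine ⟨b, δ, min μ0 (η' / 100), hb, hb'.trans_le h1, hδ, hδ'.trans_le h1, by positivity,
    (min_le_right _ _).trans_lt (by linarith), fun μ m1 m2 => ?_⟩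
  have m3 : μ < μ0 := m2.trans_le (min_le_left _ _)
  have m4 : μ < η' / 100 := m2.trans_le (min_le_right _ _)
  obtain ⟨ε0, hε0, HG⟩ := H μ m1 m3
  have hc : Tendsto (fun ε : ℝ => δ * ε ^ 2 / (2 * μ ^ 2)) (𝓝 0) (𝓝 0) := by
    have : Tendsto (fun ε : ℝ => δ * ε ^ 2 / (2 * μ ^ 2)) (𝓝 0)
        (𝓝 (δ * 0 ^ 2 / (2 * μ ^ 2))) := by
      refine Continuous.tendsto ?_ 0
      fun_prop
    simpa using this
  have hsmall : ∀ κ : ℝ, 0 < κ → ∃ r : ℝ, 0 < r ∧ ∀ ε, 0 ≤ ε → ε < r →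
      |ε / 8| < κ ∧ |δ * ε ^ 2 / (2 * μ ^ 2)| < κ := by
    intro κ hκ
    obtain ⟨r, hr, h3⟩ := Metric.tendsto_nhds_nhds.mp hc κ hκ
    refine ⟨min r κ, lt_min hr hκ, fun ε e1 e2 => ⟨?_, ?_⟩⟩
    · rw [abs_of_nonneg (by positivity)]
      have := e2.trans_le (min_le_right r κ)
      linarith
    · have := h3 (x := ε) (by
        rw [Real.dist_eq, sub_zero, abs_of_nonneg e1]
        exact e2.trans_le (min_le_left _ _))
      rwa [Real.dist_eq, sub_zero] at this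
  obtain ⟨r, hr, hr2⟩ := hsmall (η' / 100) (by positivity)
  have hbs : |b| ≤ 1 / 100 := by rw [abs_of_pos hb]; linarith
  have hμs : |μ| ≤ 1 / 100 := by rw [abs_of_pos m1]; linarith
  have hsm : ∀ ε, 0 ≤ ε → ε < min (min ε0 r) η' →
      Sm4 b μ (ε / 8) (δ * ε ^ 2 / (2 * μ ^ 2)) := by
    intro ε e1 e2
    obtain ⟨k1, k2⟩ := hr2 ε e1 (e2.trans_le ((min_le_left _ _).trans (min_le_right _ _)))
    exact ⟨hbs, hμs, k1.le.trans (by linarith), k2.le.trans (by linarith)⟩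
  have hsm0 : Sm4 b μ 0 0 := ⟨hbs, hμs, by norm_num, by norm_num⟩
  have hG0 : gm b μ (0 / 8) (δ * 0 ^ 2 / (2 * μ ^ 2)) = gm b μ 0 0 := by
    norm_num
  have hpos0 := fun x g α β Γ hx hg h11 h22 h12 =>
    nonneg_limit hε0 HG x g α β Γ hx hg h11 h22 h12
  refine ⟨min (min ε0 r) (η' / 2), fun ε => gm b μ (ε / 8) (δ * ε ^ 2 / (2 * μ ^ 2)),
    by positivity, (min_le_right _ _).trans_lt (by linarith), ?_, ?_, ?_, ?_, ?_⟩
  · intro ε e1 e2
    have e3 : ε < min (min ε0 r) η' := e2.trans_le (min_le_min_left _ (by linarith))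
    have hs := hsm ε e1 e3
    obtain ⟨k1, k2⟩ := hr2 ε e1 (e3.trans_le ((min_le_left _ _).trans (min_le_right _ _)))
    refine ⟨gm_family hs, ?_⟩
    have hcl : Close η' (gm b μ (ε / 8) (δ * ε ^ 2 / (2 * μ ^ 2))) (gm 0 0 0 0) := by
      refine close_of (gm_spec hs).2 (gm_spec sm_zero).2 (hbs.trans (by norm_num))
        (Or.inr ⟨rfl, rfl, rfl⟩) (by norm_num) (by norm_num) (by norm_num) ?_
        (h2.trans (by norm_num))
      rw [sub_zero, sub_zero, sub_zero, abs_of_pos m1]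
      linarith
    intro p v
    have hg0 : 0 ≤ (gm 0 0 0 0).inner p v v := by
      by_cases hv : v = 0
      · rw [hv]; simp
      · exact ((gm 0 0 0 0).pos p v hv).le
    obtain ⟨c1, c2⟩ := hcl p v
    have := mul_le_mul_of_nonneg_right h1 hg0
    constructor <;> linarith
  · intro θ hθ
    obtain ⟨r', hr', hr3⟩ := hsmall (min θ 1 / 100) (by positivity)
    refine ⟨min r' (min (min ε0 r) η'), by positivity, fun ε e1 e2 => ?_⟩
    have hs := hsm ε e1 (e2.trans_le (min_le_right _ _))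
    obtain ⟨k1, k2⟩ := hr3 ε e1 (e2.trans_le (min_le_left _ _))
    have hcl : Close (min θ 1) (gm b μ (ε / 8) (δ * ε ^ 2 / (2 * μ ^ 2))) (gm b μ 0 0) := by
      refine close_of (gm_spec hs).2 (gm_spec hsm0).2 (hbs.trans (by norm_num))
        (Or.inl rfl) hμs (by norm_num) (by norm_num) ?_ (min_le_right _ _)
      rw [sub_self, sub_zero, sub_zero, abs_zero]
      have hm : 0 < min θ 1 := lt_min hθ one_pos
      linarith
    change Close θ (gm b μ (ε / 8) (δ * ε ^ 2 / (2 * μ ^ 2)))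
      (gm b μ (0 / 8) (δ * 0 ^ 2 / (2 * μ ^ 2)))
    rw [hG0]
    intro p v
    have hg0 : 0 ≤ (gm b μ 0 0).inner p v v := by
      by_cases hv : v = 0
      · rw [hv]; simp
      · exact ((gm b μ 0 0).pos p v hv).le
    obtain ⟨c1, c2⟩ := hcl p v
    have := mul_le_mul_of_nonneg_right (min_le_left θ 1) hg0
    constructor <;> linarith
  · change HasNonnegativeSectionalCurvature (gm b μ (0 / 8) (δ * 0 ^ 2 / (2 * μ ^ 2)))
    rw [hG0]
    exact (gm_nonneg hsm0 hpos0).1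
  · change HasFlatPlane (gm b μ (0 / 8) (δ * 0 ^ 2 / (2 * μ ^ 2)))
    rw [hG0]
    exact (gm_nonneg hsm0 hpos0).2
  · intro ε e1 e2
    have e3 : ε < min (min ε0 r) η' := e2.trans_le (min_le_min_left _ (by linarith))
    exact gm_pos (hsm ε e1.le e3)
      (HG ε e1 (e3.trans_le ((min_le_left _ _).trans (min_le_left _ _))))

/-- **Positively curved metrics on `S³ × S³` near nonnegatively curved ones.** -/
theorem main : ∃ g₀ : RM, InFamily 0 0 0 0 g₀ ∧ HasNonnegativeSectionalCurvature g₀ ∧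
    HasFlatPlane g₀ ∧ ∀ η : ℝ, 0 < η →
      (∃ g : RM, HasPositiveSectionalCurvature g ∧ Close η g g₀) ∧
      ∃ b δ μ₀ : ℝ, 0 < b ∧ b < η ∧ 0 < δ ∧ δ < η ∧ 0 < μ₀ ∧ μ₀ < η ∧
        ∀ μ : ℝ, 0 < μ → μ < μ₀ → ∃ (ε₀ : ℝ) (G : ℝ → RM), 0 < ε₀ ∧ ε₀ < η ∧
          (∀ ε, 0 ≤ ε → ε < ε₀ → InFamily b μ (ε / 8) (δ * ε ^ 2 / (2 * μ ^ 2)) (G ε) ∧
            Close η (G ε) g₀) ∧
          (∀ θ : ℝ, 0 < θ → ∃ ε₁ : ℝ, 0 < ε₁ ∧ ∀ ε, 0 ≤ ε → ε < ε₁ → Close θ (G ε) (G 0)) ∧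
          HasNonnegativeSectionalCurvature (G 0) ∧ HasFlatPlane (G 0) ∧
          ∀ ε, 0 < ε → ε < ε₀ → HasPositiveSectionalCurvature (G ε) := by
  obtain ⟨h1, h2⟩ := gm_nonneg sm_zero base_nonneg
  refine ⟨gm 0 0 0 0, gm_family sm_zero, h1, h2, fun η hη => ?_⟩
  have h := curve η hη
  refine ⟨?_, h⟩
  obtain ⟨b, δ, μ₀, -, -, -, -, hμ₀, -, H⟩ := h
  obtain ⟨ε₀, G, hε₀, -, h3, -, -, -, h4⟩ := H (μ₀ / 2) (by positivity) (by linarith)
  exact ⟨G (ε₀ / 2), h4 _ (by positivity) (by linarith),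
    (h3 (ε₀ / 2) (by positivity) (by linarith)).2⟩

end Pool.Agent.Y934.SS
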