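import Pool.Agent.H893R5.HO.Strong

/-!
Metrics given by an ambient cometric: lower and upper bounds for the curvature of a plane in terms
of the curvature expression, comparison of two metrics with comparable cometrics.
-/

open Bundle Manifold ContDiff ContinuousLinearMap Filter VectorField
open scoped Topology

set_option autoImplicit false
set_option synthInstance.maxHeartbeats 400000
set_option maxHeartbeats 4000000
set_option linter.unusedSectionVars false

noncomputable section

namespace Pool.Agent.Y934.SS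

open Pool.Agent.H821R2 Pool.Agent.H821R3 Pool.Agent.H893R5.HO

variable {E : Type*} [NormedAddCommGroup E] [NormedSpace ℝ E] [FiniteDimensional ℝ E]
  {H : Type*} [TopologicalSpace H] {I : ModelWithCorners ℝ E H}
  {M : Type*} [TopologicalSpace M] [ChartedSpace H M] [IsManifold I ∞ M]
  {A : Type*} [NormedAddCommGroup A] [NormedSpace ℝ A] [FiniteDimensional ℝ A]
  {X : Emb I M A} {W : A → A →L[ℝ] A} (hW : X.Com W)

include hW

theorem W_self (p : M) (a b : A) : X.B a (W (X.j p) b) = X.B (X.P (X.j p) a) (W (X.j p) b) := by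
  rw [X.Psymm, hW.tan]

theorem BW_nonneg (p : M) (a : A) : 0 ≤ X.B a (W (X.j p) a) := by
  rw [W_self hW, ← Emb.W_P hW]
  by_cases h : X.P (X.j p) a = 0
  · rw [h]; simp
  · exact (hW.pos p _ (X.PP p a) h).le

/-- the expression is smallest at the `γ` with `W γ = [a, b]` -/
theorem Pexp_le (p : M) (a b γ γ' : A) (hγ : W (X.j p) γ = Emb.Br W a b (X.j p)) :
    X.Pexp W (X.j p) a b γ ≤ X.Pexp W (X.j p) a b γ' := by
  have h := BW_nonneg hW p (γ' - γ)
  have e : X.B (γ' - γ) (W (X.j p) (γ' - γ)) = X.B γ' (W (X.j p) γ') -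
      2 * X.B γ' (W (X.j p) γ) + X.B γ (W (X.j p) γ) := by
    have h1 : X.B γ (W (X.j p) γ') = X.B γ' (W (X.j p) γ) := by
      rw [← hW.symm, X.Bsymm]
    simp only [map_sub, sub_apply]
    rw [h1]
    ring
  rw [e] at h
  rw [Emb.Pexp, Emb.Pexp, ← hγ]
  linarith

variable {g : ContMDiffRiemannianMetric I ∞ E (fun x : M => TangentSpace I x)} (hg : X.Dual g W)

include hg

/-- representation of covectors -/
theorem exists_vec (p : M) (a : A) : ∃ v : TangentSpace I p, X.d p v = W (X.j p) a ∧
    ∀ w, g.inner p v w = X.B a (X.d p w) := by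
  obtain ⟨v, hv⟩ := X.rng p (W (X.j p) a)
  have hv' : X.d p v = W (X.j p) a := by
    refine Eq.trans hv ?_
    rw [hW.tan]
  exact ⟨v, hv', fun w => hg p a v hv' w⟩

variable [T2Space M] [SigmaCompactSpace M] [Nontrivial E]
  {cov : CovariantDerivative I E (TangentSpace I : M → Type _)} (h : IsLeviCivita g cov)
  {R : CurvField I M} (hR : IsRiemannTensor cov R)

include h hR

/-- upper bound for the curvature of a plane -/
theorem kap_le (p : M) (a b γ' : A) (u v : TangentSpace I p) (hu : X.d p u = W (X.j p) a)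
    (hv : X.d p v = W (X.j p) b) :
    g.inner p (R p u v v) u ≤ X.Pexp W (X.j p) a b γ' := by
  obtain ⟨γ, -, hγ, he⟩ := Emb.curv_eq hW hg h hR p a b u v hu hv
  rw [he]
  exact Pexp_le hW p a b γ γ' hγ

/-- nonnegativity for all planes -/
theorem kap_nonneg
    (hpos : ∀ (p : M) (a b γ : A), X.P (X.j p) a = a → X.P (X.j p) b = b → X.B a a = 1 →
      X.B b b = 1 → X.B a b = 0 → X.P (X.j p) γ = γ → W (X.j p) γ = Emb.Br W a b (X.j p) →
      0 ≤ X.Pexp W (X.j p) a b γ)
    (p : M) (u v : TangentSpace I p) : 0 ≤ g.inner p (R p u v v) u := by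
  let _ : RiemannianBundle (fun x : M => TangentSpace I x) := ⟨g.toRiemannianMetric⟩
  have hB : IsLeviCivitaB cov := ⟨h.smooth, h.metric, h.torsionFree⟩
  have hC := isCurvatureTensor hB hR p
  have hscale := fun r s t (u v : TangentSpace I p) => Emb.kappa_scale h hR p r s t u v
  have h00 : ∀ v : TangentSpace I p, g.inner p (R p 0 v v) 0 = 0 := fun v => by simp
  have hlin : ∀ (s : ℝ) (u : TangentSpace I p), g.inner p (R p u (s • u) (s • u)) u = 0 := by
    intro s u
    have := hscale 1 s 0 u u
    simpa using this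
  obtain ⟨a, ha1, ha⟩ := Emb.exists_covec hW hg p u
  obtain ⟨b, hb1, hb⟩ := Emb.exists_covec hW hg p v
  by_cases ha0 : a = 0
  · have : u = 0 := X.inj p u (by
      change X.d p u = 0
      rw [← ha, ha0, map_zero])
    rw [this]
    exact (h00 v).ge
  have hA : 0 < X.B a a := X.Bpos a ha0
  obtain ⟨r, hr, hr2⟩ : ∃ r : ℝ, 0 < r ∧ r * r = X.B a a :=
    ⟨Real.sqrt (X.B a a), Real.sqrt_pos.2 hA, Real.mul_self_sqrt hA.le⟩
  have hr0 : r ≠ 0 := hr.ne'
  obtain ⟨a', ha'⟩ : ∃ a', a' = r⁻¹ • a := ⟨_, rfl⟩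
  have hara : a = r • a' := by rw [ha', smul_smul, mul_inv_cancel₀ hr0, one_smul]
  have ha'a' : X.B a' a' = 1 := by
    rw [ha', map_smul, map_smul, smul_apply, ← hr2, smul_eq_mul, smul_eq_mul]
    field_simp
  obtain ⟨s, hs⟩ : ∃ s, s = X.B a' b := ⟨_, rfl⟩
  obtain ⟨c, hc⟩ : ∃ c, c = b - s • a' := ⟨_, rfl⟩
  have hac : X.B a' c = 0 := by
    rw [hc, map_sub, map_smul, ha'a', ← hs, smul_eq_mul]; ring
  by_cases hc0 : c = 0
  · have hb' : b = (s * r⁻¹) • a := by
      rw [hc] at hc0
      rw [mul_smul, ← ha', sub_eq_zero.1 hc0]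
    have hv' : v = (s * r⁻¹) • u := by
      refine X.d_inj p ?_
      rw [map_smul, ← hb, ← ha, hb', map_smul]
    rw [hv']
    exact (hlin _ u).ge
  have hC : 0 < X.B c c := X.Bpos c hc0
  obtain ⟨t, ht, ht2⟩ : ∃ t : ℝ, 0 < t ∧ t * t = X.B c c :=
    ⟨Real.sqrt (X.B c c), Real.sqrt_pos.2 hC, Real.mul_self_sqrt hC.le⟩
  have ht0 : t ≠ 0 := ht.ne'
  obtain ⟨b', hb'⟩ : ∃ b', b' = t⁻¹ • c := ⟨_, rfl⟩
  have hbb : b = s • a' + t • b' := by
    rw [hb', smul_smul, mul_inv_cancel₀ ht0, one_smul, hc]; abel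
  have hb'b' : X.B b' b' = 1 := by
    rw [hb', map_smul, map_smul, smul_apply, ← ht2, smul_eq_mul, smul_eq_mul]
    field_simp
  have ha'b' : X.B a' b' = 0 := by rw [hb', map_smul, hac, smul_zero]
  have ta : X.P (X.j p) a' = a' := by rw [ha', map_smul, ha1]
  have tb : X.P (X.j p) b' = b' := by
    rw [hb', hc, map_smul, map_sub, map_smul, ta, hb1]
  obtain ⟨Z, -, hZ⟩ := Emb.exists_X hW a'
  obtain ⟨Y, -, hY⟩ := Emb.exists_X hW b'
  have hu : u = r • Z p := by
    refine X.d_inj p ?_
    rw [map_smul, hZ, ← ha, hara, map_smul]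
  have hv : v = s • Z p + t • Y p := by
    refine X.d_inj p ?_
    rw [map_add, map_smul, map_smul, hZ, hY, ← hb, hbb, map_add, map_smul, map_smul]
  obtain ⟨γ, hγ1, hγ, hK⟩ := Emb.curv_eq hW hg h hR p a' b' (Z p) (Y p) (hZ p) (hY p)
  have hfin := hpos p a' b' γ ta tb ha'a' hb'b' ha'b' hγ1 hγ
  rw [← hK] at hfin
  rw [hu, hv, hscale]
  exact mul_nonneg (sq_nonneg _) hfin

end Pool.Agent.Y934.SS

namespace Pool.Agent.Y934.SS

open Pool.Agent.H821R2 Pool.Agent.H821R3 Pool.Agent.H893R5.HO

variable {E : Type*} [NormedAddCommGroup E] [NormedSpace ℝ E]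
  {H : Type*} [TopologicalSpace H] {I : ModelWithCorners ℝ E H}
  {M : Type*} [TopologicalSpace M] [ChartedSpace H M] [IsManifold I ∞ M]

/-- The smooth Riemannian metric `g` has nonnegative sectional curvature: `g` has a Levi-Civita
connection and a Riemann curvature tensor, and for the Riemann curvature tensor `R` of every
Levi-Civita connection of `g`, every point `x` and all linearly independent tangent vectors `u, v`
at `x`, the sectional curvature of the plane spanned by `u` and `v` is nonnegative. -/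
def HasNonnegativeSectionalCurvature
    (g : ContMDiffRiemannianMetric I ∞ E (fun x : M => TangentSpace I x)) : Prop :=
  (∃ (cov : CovariantDerivative I E (TangentSpace I : M → Type _)) (R : CurvField I M),
    IsLeviCivita g cov ∧ IsRiemannTensor cov R) ∧
  ∀ (cov : CovariantDerivative I E (TangentSpace I : M → Type _)) (R : CurvField I M),
    IsLeviCivita g cov → IsRiemannTensor cov R →
      ∀ (x : M) (u v : TangentSpace I x), LinearIndependent ℝ ![u, v] →
        0 ≤ sectionalCurvature g R x u v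

/-- some tangent plane of the metric has sectional curvature zero -/
def HasFlatPlane
    (g : ContMDiffRiemannianMetric I ∞ E (fun x : M => TangentSpace I x)) : Prop :=
  ∀ (cov : CovariantDerivative I E (TangentSpace I : M → Type _)) (R : CurvField I M),
    IsLeviCivita g cov → IsRiemannTensor cov R →
      ∃ (x : M) (u v : TangentSpace I x), LinearIndependent ℝ ![u, v] ∧
        sectionalCurvature g R x u v = 0

theorem gram_nonneg (g : ContMDiffRiemannianMetric I ∞ E (fun x : M => TangentSpace I x)) (x : M)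
    (u v : TangentSpace I x) : 0 ≤ g.inner x u u * g.inner x v v - g.inner x u v ^ 2 := by
  by_cases hu : u = 0
  · subst hu
    simp
  have huu : 0 < g.inner x u u := g.pos x u hu
  set s : ℝ := g.inner x u v / g.inner x u u with hs
  have smul_l : ∀ (c : ℝ) (a b : TangentSpace I x), g.inner x (c • a) b = c * g.inner x a b := by
    intro c a b
    rw [map_smul]; rfl
  have smul_r : ∀ (c : ℝ) (a b : TangentSpace I x), g.inner x a (c • b) = c * g.inner x a b := by
    intro c a b
    rw [map_smul]; rfl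
  have sub_l : ∀ (a b c : TangentSpace I x), g.inner x (a - b) c =
      g.inner x a c - g.inner x b c := by
    intro a b c
    rw [map_sub]; rfl
  have sub_r : ∀ (a b c : TangentSpace I x), g.inner x a (b - c) =
      g.inner x a b - g.inner x a c := by
    intro a b c
    rw [map_sub]
  have h0 : 0 ≤ g.inner x (v - s • u) (v - s • u) := by
    by_cases h : v - s • u = 0
    · rw [h]; simp
    · exact (g.pos x _ h).le
  have e : g.inner x (v - s • u) (v - s • u) =
      g.inner x v v - 2 * s * g.inner x u v + s ^ 2 * g.inner x u u := by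
    rw [sub_l, sub_r, sub_r, smul_l, smul_r, smul_l, smul_r, g.symm x v u]
    ring
  rw [e] at h0
  have e2 : g.inner x u u * g.inner x v v - g.inner x u v ^ 2 =
      g.inner x u u * (g.inner x v v - 2 * s * g.inner x u v + s ^ 2 * g.inner x u u) := by
    rw [hs]
    field_simp
    ring
  rw [e2]
  exact mul_nonneg huu.le h0

end Pool.Agent.Y934.SS
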