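import Pool.Agent.Y934.SS.Curv

/-!
Positively curved metrics on `S³ × S³` near a nonnegatively curved one.
-/

open Bundle Manifold ContDiff ContinuousLinearMap Filter VectorField Metric Module
open scoped Topology RealInnerProductSpace

set_option autoImplicit false
set_option synthInstance.maxHeartbeats 400000
set_option maxHeartbeats 4000000
set_option linter.unusedSectionVars false

noncomputable section

namespace Pool.Agent.Y934.SS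

open Pool.Agent.H821R2 Pool.Agent.H893R5.HO
open HopfPP HopfG HopfG.Eqv HopfG.HS
open Pool.Agent.W482.S33 (XX3 WW)
open Pool.Agent.H839R2.RS

/-! ### the difference of two forms of the family -/

theorem sS_eq (b μ e l : ℝ) (p : S33) (M : V ℝ) :
    HopfG.HS.sS ((Dfr b μ e l).at (c4 p.1)) (gz (XX3.j p)) M =
      (qm (qc (c4 p.1)) (c4 p.2)) 0 • M + cx M (b • qp (qc (c4 p.2))) := by
  have h2 : nn ((Dfr b μ e l).at (c4 p.1)) (gz (XX3.j p)) = b • qp (qc (c4 p.2)) := by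
    have : nn ((Dfr b μ e l).at (c4 p.1)) (gz (XX3.j p)) =
        qp (qm (qc (gz (XX3.j p))) (qm (qc (c4 p.1)) ![b, 0, 0, 0])) := rfl
    rw [this, ← qm_assoc, ← qc_qm, qm_gz]
    refine ext3 ?_ ?_ ?_ <;> simp [qp, qm, qc, mul_comm]
  rw [HopfG.HS.sS, h2]
  rfl

theorem dt_add_le (a b : V ℝ) : dt (a + b) (a + b) ≤ 2 * (dt a a + dt b b) := by
  have := C124.nn_self (a - b)
  have e : dt (a - b) (a - b) + dt (a + b) (a + b) = 2 * (dt a a + dt b b) := by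
    simp only [dt, Pi.add_apply, Pi.sub_apply]
    ring
  linarith

theorem QF_sub (b μ e l μ' e' l' : ℝ) (hb : |b| ≤ 1) (p : S33) (c : V6 ℝ) :
    |QF b μ e l p c - QF b μ' e' l' p c| ≤
      (4 * |μ - μ'| + 8 * |e - e'| + 10 * |l - l'|) * (dt c.1 c.1 + dt c.2 c.2) := by
  set s := c.1 + c.2 with hs
  set t := Ad (c4 p.1) c.1 + Ad (c4 p.2) c.2 with ht
  set S := (qm (qc (c4 p.1)) (c4 p.2)) 0 • c.2 + cx c.2 (b • qp (qc (c4 p.2))) with hS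
  set U := c.1 - Ad (qc (qm (qc (c4 p.1)) (c4 p.2))) c.1 with hU
  set A := mv ![![-1, 0, 2], ![0, -1, 0], ![0, 0, -1]] (Ad (c4 p.1) c.1) with hA
  have hx := unit1 p
  have hy := unit2 p
  have e1 : QF b μ e l p c - QF b μ' e' l' p c =
      (μ - μ') * (2 * (s 0 * s 1)) + (μ - μ') * (2 * (t 1 * t 2)) +
        2 * (e - e') * (2 * dt S U) + (l - l') * (2 * dt A c.1) := by
    rw [QF, QF, ← hs, ← ht, ← hS, ← hU, ← hA]
    simp only [dt, mv, Matrix.cons_val_zero, Matrix.cons_val_one, Matrix.cons_val]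
    ring
  have hL := C124.nn_self c.1
  have hM := C124.nn_self c.2
  have hss : dt s s ≤ 2 * (dt c.1 c.1 + dt c.2 c.2) := dt_add_le _ _
  have htt : dt t t ≤ 2 * (dt c.1 c.1 + dt c.2 c.2) := by
    have := dt_add_le (Ad (c4 p.1) c.1) (Ad (c4 p.2) c.2)
    rw [dt_Ad, dt_Ad, hx, hy] at this
    simpa using this
  have h1 : |2 * (s 0 * s 1)| ≤ 2 * (dt c.1 c.1 + dt c.2 c.2) := by
    refine le_trans ?_ hss
    rw [abs_le]
    simp only [dt]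
    constructor <;> nlinarith [sq_nonneg (s 0 + s 1), sq_nonneg (s 0 - s 1), mul_self_nonneg (s 2)]
  have h2 : |2 * (t 1 * t 2)| ≤ 2 * (dt c.1 c.1 + dt c.2 c.2) := by
    refine le_trans ?_ htt
    rw [abs_le]
    simp only [dt]
    constructor <;> nlinarith [sq_nonneg (t 1 + t 2), sq_nonneg (t 1 - t 2), mul_self_nonneg (t 0)]
  have hSS : dt S S ≤ 2 * dt c.2 c.2 := by
    have h := C124.sS_le ((Dfr b μ e l).at (c4 p.1)) (gz (XX3.j p)) (unitg p) c.2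
    rw [sS_eq, ← hS] at h
    have hv : qd ((Dfr b μ e l).at (c4 p.1)).v ((Dfr b μ e l).at (c4 p.1)).v ≤ 1 := by
      change qd (qm (qc (c4 p.1)) (Dfr b μ e l).v) (qm (qc (c4 p.1)) (Dfr b μ e l).v) ≤ 1
      rw [qd_qm_left, qd_qc, hx, one_mul]
      simp only [Dfr, qd, Matrix.cons_val_zero, Matrix.cons_val_one, Matrix.cons_val]
      obtain ⟨hb1, hb2⟩ := abs_le.1 hb
      nlinarith
    nlinarith
  have hUU : dt U U ≤ 4 * dt c.1 c.1 := by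
    have k := C124.nn_self (c.1 + Ad (qc (gz (XX3.j p))) c.1)
    have k2 : dt (Ad (qc (gz (XX3.j p))) c.1) (Ad (qc (gz (XX3.j p))) c.1) = dt c.1 c.1 := by
      rw [dt_Ad, qd_qc, unitg p, one_pow, one_mul]
    have e1 : dt (c.1 - Ad (qc (gz (XX3.j p))) c.1) (c.1 - Ad (qc (gz (XX3.j p))) c.1) +
        dt (c.1 + Ad (qc (gz (XX3.j p))) c.1) (c.1 + Ad (qc (gz (XX3.j p))) c.1) =
        2 * dt c.1 c.1 + 2 * dt (Ad (qc (gz (XX3.j p))) c.1) (Ad (qc (gz (XX3.j p))) c.1) := by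
      simp only [dt, Pi.add_apply, Pi.sub_apply]
      ring
    have e2 : U = c.1 - Ad (qc (gz (XX3.j p))) c.1 := rfl
    rw [e2]
    rw [k2] at e1
    linarith
  have h3 : |2 * dt S U| ≤ 4 * (dt c.1 c.1 + dt c.2 c.2) := by
    refine (C124.abs_two_dt _ _ 1 one_pos).trans ?_
    rw [inv_one]
    linarith
  have h4 : |2 * dt A c.1| ≤ 10 * (dt c.1 c.1 + dt c.2 c.2) := by
    refine (C124.abs_two_dt _ _ 1 one_pos).trans ?_
    have k2 : dt (Ad (c4 p.1) c.1) (Ad (c4 p.1) c.1) = dt c.1 c.1 := by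
      rw [dt_Ad, hx, one_pow, one_mul]
    have k3 : ∀ a : V ℝ, dt (mv ![![-1, 0, 2], ![0, -1, 0], ![0, 0, -1]] a)
        (mv ![![-1, 0, 2], ![0, -1, 0], ![0, 0, -1]] a) ≤ 9 * dt a a := by
      intro a
      simp only [dt, mv, Matrix.cons_val_zero, Matrix.cons_val_one,
        Matrix.cons_val]
      nlinarith [mul_self_nonneg (a 0), mul_self_nonneg (a 1), mul_self_nonneg (a 2),
        mul_self_nonneg (a 0 + a 2), mul_self_nonneg (a 0 - a 2)]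
    have k4 := k3 (Ad (c4 p.1) c.1)
    rw [k2] at k4
    rw [inv_one]
    linarith
  rw [e1]
  have f1 : |(μ - μ') * (2 * (s 0 * s 1))| ≤ |μ - μ'| * (2 * (dt c.1 c.1 + dt c.2 c.2)) := by
    rw [abs_mul]; exact mul_le_mul_of_nonneg_left h1 (abs_nonneg _)
  have f2 : |(μ - μ') * (2 * (t 1 * t 2))| ≤ |μ - μ'| * (2 * (dt c.1 c.1 + dt c.2 c.2)) := by
    rw [abs_mul]; exact mul_le_mul_of_nonneg_left h2 (abs_nonneg _)
  have f3 : |2 * (e - e') * (2 * dt S U)| ≤ 2 * |e - e'| * (4 * (dt c.1 c.1 + dt c.2 c.2)) := by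
    rw [abs_mul, abs_mul, abs_two]
    exact mul_le_mul_of_nonneg_left h3 (by positivity)
  have f4 : |(l - l') * (2 * dt A c.1)| ≤ |l - l'| * (10 * (dt c.1 c.1 + dt c.2 c.2)) := by
    rw [abs_mul]; exact mul_le_mul_of_nonneg_left h4 (abs_nonneg _)
  have g1 := abs_add_le ((μ - μ') * (2 * (s 0 * s 1)) + (μ - μ') * (2 * (t 1 * t 2)) +
    2 * (e - e') * (2 * dt S U)) ((l - l') * (2 * dt A c.1))
  have g2 := abs_add_le ((μ - μ') * (2 * (s 0 * s 1)) + (μ - μ') * (2 * (t 1 * t 2)))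
    (2 * (e - e') * (2 * dt S U))
  have g3 := abs_add_le ((μ - μ') * (2 * (s 0 * s 1))) ((μ - μ') * (2 * (t 1 * t 2)))
  linarith

theorem QF_zero_ge (p : S33) (c : V6 ℝ) : dt c.1 c.1 + dt c.2 c.2 ≤ QF 0 0 0 0 p c := by
  have h : ∀ a : V ℝ, 0 ≤ dt (mv ![![1, 0, 0], ![0, 1, 0], ![0, 0, 1]] a) a := by
    intro a
    simp only [dt, mv, Matrix.cons_val_zero, Matrix.cons_val_one, Matrix.cons_val]
    nlinarith [mul_self_nonneg (a 0), mul_self_nonneg (a 1), mul_self_nonneg (a 2)]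
  rw [QF]
  have h1 := h (c.1 + c.2)
  have h2 := h (Ad (c4 p.1) c.1 + Ad (c4 p.2) c.2)
  linarith

/-- The metrics `g` and `g'` are within `η` of each other:
`(1 - η) g'(v, v) ≤ g(v, v) ≤ (1 + η) g'(v, v)` for all tangent vectors `v`. -/
def Close (η : ℝ) (g g' : RM) : Prop :=
  ∀ (p : S33) (v : TangentSpace I33 p),
    (1 - η) * g'.inner p v v ≤ g.inner p v v ∧ g.inner p v v ≤ (1 + η) * g'.inner p v v

theorem QF_b (b : ℝ) (p : S33) (c : V6 ℝ) : QF b 0 0 0 p c = QF 0 0 0 0 p c := by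
  rw [QF, QF]
  ring

theorem QF_ge (b μ e l : ℝ) (hb : |b| ≤ 1) (hμ : |μ| ≤ 1 / 100) (he : |e| ≤ 1 / 100)
    (hl : |l| ≤ 1 / 100) (p : S33) (c : V6 ℝ) :
    1 / 2 * (dt c.1 c.1 + dt c.2 c.2) ≤ QF b μ e l p c := by
  have h1 := QF_sub b μ e l 0 0 0 hb p c
  rw [sub_zero, sub_zero, sub_zero, QF_b] at h1
  have h2 := QF_zero_ge p c
  have hL := C124.nn_self c.1
  have hM := C124.nn_self c.2
  have h3 := (abs_le.1 h1).1
  have h4 : (4 * |μ| + 8 * |e| + 10 * |l|) * (dt c.1 c.1 + dt c.2 c.2) ≤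
      1 / 2 * (dt c.1 c.1 + dt c.2 c.2) :=
    mul_le_mul_of_nonneg_right (by linarith) (by linarith)
  linarith

theorem close_of {b μ e l b' μ' e' l' η : ℝ} {g g₀ : RM} (h : Full g (QF b μ e l))
    (h₀ : Full g₀ (QF b' μ' e' l')) (hb : |b| ≤ 1) (hb' : b = b' ∨ (μ' = 0 ∧ e' = 0 ∧ l' = 0))
    (hμ : |μ'| ≤ 1 / 100) (he : |e'| ≤ 1 / 100) (hl : |l'| ≤ 1 / 100)
    (h1 : 4 * |μ - μ'| + 8 * |e - e'| + 10 * |l - l'| ≤ η / 4) (h2 : η ≤ 1) : Close η g g₀ := by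
  have hη : 0 ≤ η := by
    have a1 := abs_nonneg (μ - μ')
    have a2 := abs_nonneg (e - e')
    have a3 := abs_nonneg (l - l')
    linarith
  have hQ : ∀ p c, QF b' μ' e' l' p c = QF b μ' e' l' p c := by
    intro p c
    rcases hb' with rfl | ⟨rfl, rfl, rfl⟩
    · rfl
    · exact (QF_b b' p c).trans (QF_b b p c).symm
  have hN : ∀ c : V6 ℝ, 0 ≤ dt c.1 c.1 + dt c.2 c.2 := fun c =>
    add_nonneg (C124.nn_self c.1) (C124.nn_self c.2)
  have hge : ∀ p c, 1 / 2 * (dt c.1 c.1 + dt c.2 c.2) ≤ QF b' μ' e' l' p c := fun p c => by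
    rw [hQ]
    exact QF_ge b μ' e' l' hb hμ he hl p c
  have key : ∀ p c, |QF b μ e l p c - QF b' μ' e' l' p c| ≤ η / 2 * QF b' μ' e' l' p c := by
    intro p c
    rw [hQ]
    refine (QF_sub b μ e l μ' e' l' hb p c).trans ?_
    have hq := QF_ge b μ' e' l' hb hμ he hl p c
    have k1 := mul_le_mul_of_nonneg_right h1 (hN c)
    have k2 := mul_le_mul_of_nonneg_left hq (by positivity : (0 : ℝ) ≤ η / 2)
    linarith
  have hq0 : ∀ p c, 0 ≤ QF b' μ' e' l' p c := fun p c => by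
    have := hge p c
    have := hN c
    linarith
  have a1 := compare h h₀ (r := 1 + η / 2) (by positivity) (fun p c => by
    have := (abs_le.1 (key p c)).2
    linarith)
  have a2 := compare h₀ h (r := 1 + η) (by positivity) (fun p c => by
    have k := (abs_le.1 (key p c)).1
    have k0 := hq0 p c
    have k1 : (1 - η / 2) * QF b' μ' e' l' p c ≤ QF b μ e l p c := by linarith
    have k2 : 1 ≤ (1 + η) * (1 - η / 2) := by nlinarith
    have k3 := mul_le_mul_of_nonneg_left k1 (by positivity : (0 : ℝ) ≤ 1 + η)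
    have k4 := mul_le_mul_of_nonneg_right k2 k0
    nlinarith)
  intro p v
  have g0 : 0 ≤ g₀.inner p v v := by
    by_cases hv : v = 0
    · rw [hv]; simp
    · exact (g₀.pos p v hv).le
  have gg : 0 ≤ g.inner p v v := by
    by_cases hv : v = 0
    · rw [hv]; simp
    · exact (g.pos p v hv).le
  constructor
  · have h5 := a1 p v
    have h7 := mul_le_mul_of_nonneg_left h5 (by linarith : (0 : ℝ) ≤ 1 - η)
    have h8 : (1 - η) * ((1 + η / 2) * g.inner p v v) ≤ g.inner p v v := by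
      have : (1 - η) * (1 + η / 2) ≤ 1 := by nlinarith
      have := mul_le_mul_of_nonneg_right this gg
      linarith
    linarith
  · exact a2 p v

/-! ### existence of the metrics -/

theorem data (b μ e l : ℝ) (hb : |b| ≤ 1 / 100) (hμ : |μ| ≤ 1 / 100) (he : |e| ≤ 1 / 100)
    (hl : |l| ≤ 1 / 100) :
    XX3.Com (WW (Dfr b μ e l) (symM_Dfr_W b μ e l) (symM_Dfr_Wp b μ e l)) :=
  com_of _ _ fun x g hx hg c hc => C124.pos_K0 hb hμ he hl x g hx hg c hc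

/-- the metric of the family with given parameters, with its properties -/
theorem exists_g (b μ e l : ℝ) (hb : |b| ≤ 1 / 100) (hμ : |μ| ≤ 1 / 100) (he : |e| ≤ 1 / 100)
    (hl : |l| ≤ 1 / 100) : ∃ g : RM,
      XX3.Dual g (WW (Dfr b μ e l) (symM_Dfr_W b μ e l) (symM_Dfr_Wp b μ e l)) ∧
      Full g (QF b μ e l) := by
  have hC := data b μ e l hb hμ he hl
  obtain ⟨g, hg⟩ := Emb.exists_metric hC
  refine ⟨g, hg, ?_, ?_, ?_⟩
  · intro p c v hv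
    have h1 : g.inner p v v = dt6 c (K0 ((Dfr b μ e l).at (c4 p.1)) (gz (XX3.j p)) c) :=
      isCometric_of _ _ hC hg p c v hv
    exact h1.trans (QF_eq b μ e l p c)
  · intro p c
    obtain ⟨v, -, h, -⟩ := dual_om _ _ hC hg p c
    exact ⟨v, h⟩
  · intro p v
    exact exists_c _ _ hC hg p v

/-- the statement `MAIN` of the library -/
theorem main_family : G2.MAIN := H515HS.main G2.t0P G2.t0M G2.t1P G2.t1M

theorem tendsto_aux {X : Type*} [TopologicalSpace X] (F : ℝ → ℝ → X → ℝ)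
    (hF : Continuous fun p : ℝ × ℝ × X => F (p.1 / 8) p.2.1 p.2.2) (q : X) (L : ℝ → ℝ)
    (hL : Continuous L) :
    Tendsto (fun ε => F (ε / 8) (L ε) q) (𝓝[>] 0) (𝓝 (F (0 / 8) (L 0) q)) := by
  have h0 : Continuous fun ε : ℝ => (ε, L ε, q) :=
    continuous_id.prodMk (hL.prodMk continuous_const)
  exact ((hF.comp h0).tendsto 0).mono_left nhdsWithin_le_nhds

/-- positivity for small `ε` gives nonnegativity for `ε = 0` -/
theorem nonneg_limit {b μ δ ε₀ : ℝ} (hε₀ : 0 < ε₀)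
    (h : ∀ ε, 0 < ε → ε < ε₀ → GOAL b μ (ε / 8) (δ * ε ^ 2 / (2 * μ ^ 2)))
    (x g : Q4 ℝ) (α β Γ : V6 ℝ) (hx : qd x x = 1) (hg : qd g g = 1) (h11 : dt6 α α = 1)
    (h22 : dt6 β β = 1) (h12 : dt6 α β = 0) : 0 ≤ PS ((Dfr b μ 0 0).at x) g α β Γ := by
  have h2 := tendsto_aux (H515HS.FF b μ) (H515HS.cont_FF8 b μ) (x, g, α, β, Γ)
    (fun ε => δ * ε ^ 2 / (2 * μ ^ 2)) (by fun_prop)
  have e1 : (0 : ℝ) / 8 = 0 := by norm_num
  have e2 : δ * 0 ^ 2 / (2 * μ ^ 2) = 0 := by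
    rw [zero_pow two_ne_zero, mul_zero, zero_div]
  rw [e1] at h2
  simp only [e2] at h2
  refine ge_of_tendsto h2 ?_
  filter_upwards [Ioo_mem_nhdsGT hε₀] with ε hε
  exact (h ε hε.1 hε.2 x g α β Γ hx hg h11 h22 h12).le

/-! ### the flat plane -/

theorem K0_1 (b μ : ℝ) (a : V6 ℝ) : K0 (Dfr b μ 0 0) ![1, 0, 0, 0] a =
    a + (mv (Dfr b μ 0 0).W (a.1 + a.2), mv (Dfr b μ 0 0).W (a.1 + a.2)) +
      (mv (Dfr b μ 0 0).Wp (a.1 + a.2), mv (Dfr b μ 0 0).Wp (a.1 + a.2)) := by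
  have h1 : (Dfr b μ 0 0).e = 0 := rfl
  have h2 : (Dfr b μ 0 0).l = 0 := rfl
  have qc1 : qc (![1, 0, 0, 0] : Q4 ℝ) = ![1, 0, 0, 0] := by
    refine ext4 ?_ ?_ ?_ ?_ <;> simp [qc]
  rw [K0, pW, Ad_one, qc1, Ad_one, h1, h2, mul_zero, zero_smul, zero_smul, add_zero, add_zero]

theorem pW_1 (b μ : ℝ) (a : V6 ℝ) : pW (Dfr b μ 0 0) ![1, 0, 0, 0] a =
    (mv (Dfr b μ 0 0).Wp (a.1 + a.2), mv (Dfr b μ 0 0).Wp (a.1 + a.2)) := by
  have qc1 : qc (![1, 0, 0, 0] : Q4 ℝ) = ![1, 0, 0, 0] := by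
    refine ext4 ?_ ?_ ?_ ?_ <;> simp [qc]
  rw [pW, Ad_one, qc1, Ad_one]

theorem K1_1 (b μ : ℝ) (w a : V6 ℝ) : K1 (Dfr b μ 0 0) ![1, 0, 0, 0] w a =
    pW1 (Dfr b μ 0 0) ![1, 0, 0, 0] w a := by
  have h1 : (Dfr b μ 0 0).e = 0 := rfl
  have h2 : (Dfr b μ 0 0).l = 0 := rfl
  rw [K1, h1, h2, mul_zero, zero_smul, zero_smul, add_zero, add_zero]

theorem K2_1 (b μ : ℝ) (w u a : V6 ℝ) : K2 (Dfr b μ 0 0) ![1, 0, 0, 0] w u a =
    pW2 (Dfr b μ 0 0) ![1, 0, 0, 0] w u a := by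
  have h1 : (Dfr b μ 0 0).e = 0 := rfl
  have h2 : (Dfr b μ 0 0).l = 0 := rfl
  rw [K2, h1, h2, mul_zero, zero_smul, zero_smul, add_zero, add_zero]

theorem zero_at (b μ : ℝ) : PS (Dfr b μ 0 0) ![1, 0, 0, 0] (![1, 0, 0], 0) (0, ![1, 0, 0])
    (![0, 0, μ], ![0, 0, -μ]) = 0 := by
  have e1 : (Dfr b μ 0 0).W = ![![1, μ, 0], ![μ, 1, 0], ![0, 0, 1]] := rfl
  have e2 : (Dfr b μ 0 0).Wp = ![![1, 0, 0], ![0, 1, μ], ![0, μ, 1]] := rfl
  simp only [PS, PM4, g2, g1, gk, gr, dd, K0_1, K1_1, K2_1, pW1, pW2, pW_1, e1, e2]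
  simp [dt6, dt, cx6, cx, mv]
  ring

/-- the point `(1, 1)` -/
def pt : S33 := (Pool.Agent.W482.S33.y0, Pool.Agent.W482.S33.y0)

theorem c4_pt : c4 (pt.1 : U4) = ![1, 0, 0, 0] ∧ c4 (pt.2 : U4) = ![1, 0, 0, 0] := by
  have : c4 (EuclideanSpace.single (0 : Fin 4) (1 : ℝ) : U4) = ![1, 0, 0, 0] := by
    refine ext4 ?_ ?_ ?_ ?_ <;> simp [c4]
  exact ⟨this, this⟩

theorem gz_pt : gz (XX3.j pt) = ![1, 0, 0, 0] := by
  have h : gz (XX3.j pt) = qm (qc (c4 (pt.1 : U4))) (c4 (pt.2 : U4)) := rfl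
  rw [h, c4_pt.1, c4_pt.2]
  refine ext4 ?_ ?_ ?_ ?_ <;> simp [qc, qm]

theorem Dfr_at_one (b μ e l : ℝ) : (Dfr b μ e l).at ![1, 0, 0, 0] = Dfr b μ e l := by
  have qc1 : qc (![1, 0, 0, 0] : Q4 ℝ) = ![1, 0, 0, 0] := by
    refine ext4 ?_ ?_ ?_ ?_ <;> simp [qc]
  have h1 : ((Dfr b μ e l).at ![1, 0, 0, 0]).Wp = (Dfr b μ e l).Wp := by
    have : ((Dfr b μ e l).at ![1, 0, 0, 0]).Wp =
      tr3 ![Ad (qc ![1, 0, 0, 0]) (mv (Dfr b μ e l).Wp (Ad ![1, 0, 0, 0] ![1, 0, 0])),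
        Ad (qc ![1, 0, 0, 0]) (mv (Dfr b μ e l).Wp (Ad ![1, 0, 0, 0] ![0, 1, 0])),
        Ad (qc ![1, 0, 0, 0]) (mv (Dfr b μ e l).Wp (Ad ![1, 0, 0, 0] ![0, 0, 1]))] := rfl
    rw [this, qc1]
    simp only [Ad_one]
    funext i j
    fin_cases i <;> fin_cases j <;> simp [tr3, mv, dt, Dfr]
  have h2 : ((Dfr b μ e l).at ![1, 0, 0, 0]).A = (Dfr b μ e l).A := by
    have : ((Dfr b μ e l).at ![1, 0, 0, 0]).A =
      tr3 ![mv (Dfr b μ e l).A (Ad ![1, 0, 0, 0] ![1, 0, 0]),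
        mv (Dfr b μ e l).A (Ad ![1, 0, 0, 0] ![0, 1, 0]),
        mv (Dfr b μ e l).A (Ad ![1, 0, 0, 0] ![0, 0, 1])] := rfl
    rw [this]
    simp only [Ad_one]
    funext i j
    fin_cases i <;> fin_cases j <;> simp [tr3, mv, dt, Dfr, A0]
  have h3 : ((Dfr b μ e l).at ![1, 0, 0, 0]).v = (Dfr b μ e l).v := by
    have : ((Dfr b μ e l).at ![1, 0, 0, 0]).v = qm (qc ![1, 0, 0, 0]) (Dfr b μ e l).v := rfl
    rw [this, qc1, one_qm]
  have h4 : (Dfr b μ e l).at ![1, 0, 0, 0] = ⟨(Dfr b μ e l).W,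
    ((Dfr b μ e l).at ![1, 0, 0, 0]).Wp, ((Dfr b μ e l).at ![1, 0, 0, 0]).A,
    ((Dfr b μ e l).at ![1, 0, 0, 0]).v, e, l⟩ := rfl
  rw [h4, h1, h2, h3]
  rfl

theorem indep_e : LinearIndependent ℝ ![((![1, 0, 0], 0) : V6 ℝ), (0, ![1, 0, 0])] := by
  rw [LinearIndependent.pair_iff]
  intro s t h
  have h1 := congrFun (congrArg Prod.fst h) 0
  have h2 := congrFun (congrArg Prod.snd h) 0
  simp at h1 h2
  exact ⟨h1, h2⟩

/-- the metrics with `e = l = 0` have a flat plane -/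
theorem flat {b μ : ℝ} {g : RM}
    (hC : XX3.Com (WW (Dfr b μ 0 0) (symM_Dfr_W b μ 0 0) (symM_Dfr_Wp b μ 0 0)))
    (hg : XX3.Dual g (WW (Dfr b μ 0 0) (symM_Dfr_W b μ 0 0) (symM_Dfr_Wp b μ 0 0)))
    (hpos : ∀ (x g : Q4 ℝ) (α β Γ : V6 ℝ), qd x x = 1 → qd g g = 1 →
      dt6 α α = 1 → dt6 β β = 1 → dt6 α β = 0 → 0 ≤ PS ((Dfr b μ 0 0).at x) g α β Γ) :
    HasFlatPlane g := by
  refine flat_of_PS _ _ hC hg hpos pt (![1, 0, 0], 0) (0, ![1, 0, 0])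
    (![0, 0, μ], ![0, 0, -μ]) indep_e ?_
  rw [c4_pt.1, gz_pt, Dfr_at_one]
  exact zero_at b μ

end Pool.Agent.Y934.SS
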