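import Pool.Agent.Y934.SS.Fin

/-!
General form of the statement on deformations of nonnegatively curved metrics to positively curved
metrics, for a manifold which is mapped to `ℝ⁴ × ℝ⁴` (pairs of quaternions), and its proof for
`S³ × S³`.
-/

open Bundle Manifold ContDiff Metric
open scoped Topology

set_option autoImplicit false
set_option linter.unusedSectionVars false

noncomputable section

namespace Pool.Agent.Y934.SS

open Pool.Agent.H821R2 Pool.Agent.H893R5.HO
open HopfPP HopfG HopfG.Eqv HopfG.HS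
open Pool.Agent.H839R2.RS

/-- The explicit quadratic form, for quaternions `x`, `y` and vectors `L = c.1`, `M = c.2` of `ℝ³`
(imaginary quaternions): with `L' = x L x̄`, `M' = y M ȳ` and `k = x̄ y` it is
`|L|² + |M|² + ⟨W (L + M), L + M⟩ + ⟨W' (L' + M'), L' + M'⟩ +
4 e ⟨(Re k) M + M × (b Im ȳ), L - k̄ L k⟩ + 2 l ⟨A L', L⟩`. -/
def QQ (b μ e l : ℝ) (x y : Fin 4 → ℝ) (c : (Fin 3 → ℝ) × (Fin 3 → ℝ)) : ℝ :=
  dt c.1 c.1 + dt c.2 c.2 +
    dt (mv ![![1, μ, 0], ![μ, 1, 0], ![0, 0, 1]] (c.1 + c.2)) (c.1 + c.2) +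
    dt (mv ![![1, 0, 0], ![0, 1, μ], ![0, μ, 1]] (Ad x c.1 + Ad y c.2))
      (Ad x c.1 + Ad y c.2) +
    4 * e * dt ((qm (qc x) y) 0 • c.2 + cx c.2 (b • qp (qc y)))
      (c.1 - Ad (qc (qm (qc x) y)) c.1) +
    2 * l * dt (mv ![![-1, 0, 2], ![0, -1, 0], ![0, 0, -1]] (Ad x c.1)) c.1

section

variable {E : Type*} [NormedAddCommGroup E] [NormedSpace ℝ E]
  {H : Type*} [TopologicalSpace H] {I : ModelWithCorners ℝ E H}
  {M : Type*} [TopologicalSpace M] [ChartedSpace H M] [IsManifold I ∞ M]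
  {E' : Type*} [NormedAddCommGroup E'] [NormedSpace ℝ E']
  {H' : Type*} [TopologicalSpace H'] {J : ModelWithCorners ℝ E' H'}
  {N : Type*} [TopologicalSpace N] [ChartedSpace H' N] [IsManifold J ∞ N]
  {W : Type*} [NormedAddCommGroup W] [NormedSpace ℝ W]

/-- The metrics `g` and `g'` on `M` are within `η` of each other:
`(1 - η) g'(v, v) ≤ g(v, v) ≤ (1 + η) g'(v, v)` for all tangent vectors `v`. -/
def Near (η : ℝ) (g g' : ContMDiffRiemannianMetric I ∞ E (fun x : M => TangentSpace I x)) :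
    Prop :=
  ∀ (p : M) (v : TangentSpace I p),
    (1 - η) * g'.inner p v v ≤ g.inner p v v ∧ g.inner p v v ≤ (1 + η) * g'.inner p v v

/-- For maps `x, y : M → W` to a vector space with coordinates `κ : W → ℝ⁴` (quaternions) and a
tangent vector `v` of `M` with `a = dx(v)`, `b = dy(v)`: the pair of the imaginary parts of the
quaternions `x̄ a` and `ȳ b`. -/
def mom (κ : W → Fin 4 → ℝ) (x y : M → W) (p : M) (v : TangentSpace I p) :
    (Fin 3 → ℝ) × (Fin 3 → ℝ) :=
  (qp (qm (qc (κ (x p))) (κ (mvfderiv I x p v))), qp (qm (qc (κ (y p))) (κ (mvfderiv I y p v))))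

/-- The metric `g` on `M` has the cometric `QQ b μ e l`: for all `p` and `L, M` in `ℝ³`, if the vector
`v` represents the covector `w ↦ ⟨L, Im (x̄ dx(w))⟩ + ⟨M, Im (ȳ dy(w))⟩` at `p` with respect to `g`,
then `g(v, v) = QQ b μ e l x y (L, M)`. -/
def HasCometric (κ : W → Fin 4 → ℝ) (x y : M → W) (b μ e l : ℝ)
    (g : ContMDiffRiemannianMetric I ∞ E (fun x : M => TangentSpace I x)) : Prop :=
  ∀ (p : M) (c : (Fin 3 → ℝ) × (Fin 3 → ℝ)) (v : TangentSpace I p),
    (∀ w : TangentSpace I p, g.inner p v w = dt6 c (mom κ x y p w)) →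
      g.inner p v v = QQ b μ e l (κ (x p)) (κ (y p)) c

variable (J) in
/-- The metric `g` on `M` has the cometric `QQ b μ e l`, and `f : M → N` is a Riemannian submersion
from `g` onto a smooth Riemannian metric on `N`. -/
def Submersed (κ : W → Fin 4 → ℝ) (x y : M → W) (f : M → N)
    (b μ e l : ℝ) (g : ContMDiffRiemannianMetric I ∞ E (fun x : M => TangentSpace I x)) : Prop :=
  HasCometric κ x y b μ e l g ∧
    ∃ h : ContMDiffRiemannianMetric J ∞ E' (fun x : N => TangentSpace J x),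
      IsRiemannianSubmersion g h f

variable (I M) in
/-- The smooth Riemannian metrics on `M`. -/
abbrev RMet : Type _ := ContMDiffRiemannianMetric I ∞ E (fun x : M => TangentSpace I x)

/-- The metrics `G ε`, `0 ≤ ε < ε₀`, converge uniformly to `G 0` for `ε → 0`; the metric `G 0` has
nonnegative sectional curvature and a flat plane, and `G ε` has positive sectional curvature for
`0 < ε < ε₀`. -/
def Improves (ε₀ : ℝ) (G : ℝ → RMet I M) : Prop :=
  (∀ θ : ℝ, 0 < θ → ∃ ε₁ : ℝ, 0 < ε₁ ∧ ∀ ε, 0 ≤ ε → ε < ε₁ → Near θ (G ε) (G 0)) ∧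
    HasNonnegativeSectionalCurvature (G 0) ∧ HasFlatPlane (G 0) ∧
    ∀ ε, 0 < ε → ε < ε₀ → HasPositiveSectionalCurvature (G ε)

variable (J) in
/-- The metrics `G ε`, `0 ≤ ε < ε₀`, have the cometrics `QQ b μ (ε / 8) (δ ε² / (2 μ²))`, are
submersed by `f` and are within `η` of `g₀`. -/
def Explicit (κ : W → Fin 4 → ℝ) (x y : M → W) (f : M → N)
    (g₀ : RMet I M) (η b δ μ ε₀ : ℝ) (G : ℝ → RMet I M) : Prop :=
  ∀ ε, 0 ≤ ε → ε < ε₀ →
    Submersed J κ x y f b μ (ε / 8) (δ * ε ^ 2 / (2 * μ ^ 2)) (G ε) ∧ Near η (G ε) g₀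

variable (J) in
/-- There are `b, δ, μ₀` in `(0, η)` such that for every `μ` in `(0, μ₀)` there are `ε₀` in `(0, η)` and
explicit metrics `G ε`, `0 ≤ ε < ε₀`, within `η` of `g₀`, with cometrics
`QQ b μ (ε / 8) (δ ε² / (2 μ²))`, which improve from nonnegative curvature (`ε = 0`) to positive
curvature (`ε > 0`). -/
def Curves (κ : W → Fin 4 → ℝ) (x y : M → W) (f : M → N)
    (g₀ : RMet I M) (η : ℝ) : Prop :=
  ∃ b δ μ₀ : ℝ, 0 < b ∧ b < η ∧ 0 < δ ∧ δ < η ∧ 0 < μ₀ ∧ μ₀ < η ∧
    ∀ μ : ℝ, 0 < μ → μ < μ₀ → ∃ (ε₀ : ℝ) (G : ℝ → RMet I M),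
      0 < ε₀ ∧ ε₀ < η ∧ Explicit J κ x y f g₀ η b δ μ ε₀ G ∧ Improves ε₀ G

variable (I J) in
/-- **The deformation statement** for the manifold `M` with the quaternion valued maps `x`, `y` and
the map `f` to the manifold `N`: there is a metric `g₀` with cometric `QQ 0 0 0 0`, submersed by `f`,
of nonnegative sectional curvature and with a flat plane, such that for every `η > 0` there are a
metric of positive sectional curvature within `η` of `g₀` and curves of explicit metrics as in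
`Curves`. -/
def Deformations (κ : W → Fin 4 → ℝ) (x y : M → W) (f : M → N) :
    Prop :=
  ∃ g₀ : RMet I M,
    Submersed J κ x y f 0 0 0 0 g₀ ∧ HasNonnegativeSectionalCurvature g₀ ∧ HasFlatPlane g₀ ∧
    ∀ η : ℝ, 0 < η →
      (∃ g : RMet I M, HasPositiveSectionalCurvature g ∧ Near η g g₀) ∧ Curves J κ x y f g₀ η

variable (I J M N) in
/-- The deformation statement for the product `M × N` of two manifolds, which are mapped to `W` by
`x` and `y`, and the first projection. -/
def ProductDeformations (κ : W → Fin 4 → ℝ) (x : M → W) (y : N → W) : Prop :=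
  Deformations (I.prod J) I κ (fun q : M × N => x q.1) (fun q : M × N => y q.2)
    (Prod.fst : M × N → M)

end

theorem deformations : ProductDeformations (𝓡 3) (sphere (0 : EuclideanSpace ℝ (Fin 4)) 1) (𝓡 3)
    (sphere (0 : EuclideanSpace ℝ (Fin 4)) 1) (fun (u : EuclideanSpace ℝ (Fin 4)) i => u i)
    (fun p => p) (fun p => p) :=
  main

end Pool.Agent.Y934.SS
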